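import Pool.Agent.N741.HB.Stm

/-!
# A common root gives an r-th power (HB/8)
-/

set_option autoImplicit false

namespace Pool.Agent.N157.HB

open MvPolynomial Pool.Agent.N741.HB

/-- the prime ideal of the generic fibre -/
def pp {d : ℕ} (h : MvPolynomial (Option (Fin d)) ℤ) : Ideal (MvPolynomial (Option (Fin d)) ℤ) where
  carrier := {p | InP h p}
  zero_mem' := ⟨1, one_ne_zero, by simp⟩
  add_mem' := by
    rintro p q ⟨c, hc, hc'⟩ ⟨e, he, he'⟩
    refine ⟨c * e, mul_ne_zero hc he, ?_⟩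
    have h1 : rename some (c * e) * (p + q) =
        rename some e * (rename some c * p) + rename some c * (rename some e * q) := by
      rw [map_mul]; ring
    rw [h1]
    exact dvd_add (Dvd.dvd.mul_left hc' _) (Dvd.dvd.mul_left he' _)
  smul_mem' := by
    rintro q p ⟨c, hc, hc'⟩
    refine ⟨c, hc, ?_⟩
    have h1 : rename some c * (q • p) = q * (rename some c * p) := by
      rw [smul_eq_mul]; ring
    rw [h1]
    exact Dvd.dvd.mul_left hc' _

theorem mem_pp {d : ℕ} {h p : MvPolynomial (Option (Fin d)) ℤ} : p ∈ pp h ↔ InP h p := Iff.rfl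

theorem pp_prime {d : ℕ} {h : MvPolynomial (Option (Fin d)) ℤ} (hI : Irr h) : (pp h).IsPrime where
  ne_top' := by
    intro h1
    exact hI.one (mem_pp.1 (by rw [h1]; trivial))
  mem_or_mem' := fun {p q} hpq => hI.mul p q hpq


open Classical in
theorem root_aux {S R L : Type} [CommRing S] [IsDomain S] [CommRing R] [IsDomain R] [Field L]
    (ρ : S →+* R) (φ : R →+* L) (hρ : Function.Injective ρ) (hinj : Function.Injective (φ.comp ρ))
    (hfr : ∀ x : L, ∃ a b, φ b ≠ 0 ∧ φ a / φ b = x)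
    (P : Polynomial S) (A F : R) (r : ℕ) (hP : P ≠ 0) (hr : 1 ≤ r) (hφA : φ A ≠ 0) (hφF : φ F ≠ 0)
    (hres : φ (Polynomial.resultant (P.map ρ) (Polynomial.C A * Polynomial.X ^ r - Polynomial.C F)) = 0) :
    ∃ κ : ℕ, 1 ≤ κ ∧ κ ≤ P.natDegree ∧ ∃ g₁ g₂ : R, φ g₁ ≠ 0 ∧ φ g₂ ≠ 0 ∧
      φ (F ^ κ * g₂ ^ r - A ^ κ * g₁ ^ r) = 0 := by
  have hA0 : A ≠ 0 := by
    rintro rfl
    exact hφA (map_zero φ)
  set P' : Polynomial L := P.map (φ.comp ρ) with hP'
  have hP'0 : P' ≠ 0 := (Polynomial.map_ne_zero_iff hinj).2 hP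
  have hP'd : P'.natDegree = P.natDegree := Polynomial.natDegree_map_eq_of_injective hinj P
  set g' : Polynomial L := Polynomial.C (φ A) * Polynomial.X ^ r - Polynomial.C (φ F) with hg'
  have hg'd : g'.natDegree = r := by
    rw [hg', Polynomial.natDegree_sub_C, Polynomial.natDegree_C_mul_X_pow r _ hφA]
  have hgd : (Polynomial.C A * Polynomial.X ^ r - Polynomial.C F).natDegree = r := by
    rw [Polynomial.natDegree_sub_C, Polynomial.natDegree_C_mul_X_pow r _ hA0]
  have hres' : Polynomial.resultant P' g' = 0 := by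
    rw [← Polynomial.resultant_map_map, Polynomial.map_map] at hres
    have h2 : (Polynomial.C A * Polynomial.X ^ r - Polynomial.C F).map φ = g' := by
      rw [hg', Polynomial.map_sub, Polynomial.map_mul, Polynomial.map_pow, Polynomial.map_C,
        Polynomial.map_X, Polynomial.map_C]
    rw [h2, Polynomial.natDegree_map_eq_of_injective hρ, hgd] at hres
    rw [hP'd, hg'd]
    exact hres
  have hncop : ¬ IsCoprime P' g' := fun hc => Polynomial.resultant_ne_zero P' g' hc hres'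
  obtain ⟨q, hq, hqP, hqg⟩ : ∃ q : Polynomial L, Irreducible q ∧ q ∣ P' ∧ q ∣ g' := by
    have hnu : ¬ IsUnit (EuclideanDomain.gcd P' g') := fun hu => hncop (EuclideanDomain.gcd_isUnit_iff.1 hu)
    have hne : EuclideanDomain.gcd P' g' ≠ 0 := by
      intro h0
      exact hP'0 (EuclideanDomain.gcd_eq_zero_iff.1 h0).1
    obtain ⟨q, hq, hqd⟩ := WfDvdMonoid.exists_irreducible_factor hnu hne
    exact ⟨q, hq, hqd.trans (EuclideanDomain.gcd_dvd_left _ _), hqd.trans (EuclideanDomain.gcd_dvd_right _ _)⟩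
  have : Fact (Irreducible q) := ⟨hq⟩
  set κ := q.natDegree with hκ
  have hκ1 : 1 ≤ κ := hq.natDegree_pos
  have hκ2 : κ ≤ P.natDegree := by
    rw [← hP'd]
    exact Polynomial.natDegree_le_of_dvd hqP hP'0
  have hfin : Module.finrank L (AdjoinRoot q) = κ := by
    rw [(AdjoinRoot.powerBasis hq.ne_zero).finrank, AdjoinRoot.powerBasis_dim]
  have hroot : algebraMap L (AdjoinRoot q) (φ A) * AdjoinRoot.root q ^ r = algebraMap L (AdjoinRoot q) (φ F) := by
    have h1 : Polynomial.aeval (AdjoinRoot.root q) g' = 0 := by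
      obtain ⟨u, hu⟩ := hqg
      rw [hu, map_mul, AdjoinRoot.aeval_eq, AdjoinRoot.mk_self, zero_mul]
    rw [hg', map_sub, map_mul, map_pow, Polynomial.aeval_C, Polynomial.aeval_X, Polynomial.aeval_C] at h1
    exact sub_eq_zero.1 h1
  set η : L := Algebra.norm L (AdjoinRoot.root q) with hη
  have hηr : φ A ^ κ * η ^ r = φ F ^ κ := by
    have h1 := congrArg (Algebra.norm L) hroot
    rw [map_mul, map_pow, Algebra.norm_algebraMap, Algebra.norm_algebraMap, hfin] at h1
    exact h1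
  have hη0 : η ≠ 0 := by
    intro h0
    rw [h0, zero_pow (by omega), mul_zero] at hηr
    exact pow_ne_zero κ hφF hηr.symm
  obtain ⟨g₁, g₂, hg2, hab'⟩ := hfr η
  have hg1 : φ g₁ ≠ 0 := by
    intro h0
    rw [h0, zero_div] at hab'
    exact hη0 hab'.symm
  refine ⟨κ, hκ1, hκ2, g₁, g₂, hg1, hg2, ?_⟩
  rw [map_sub, map_mul, map_mul, map_pow, map_pow, map_pow, map_pow, sub_eq_zero, ← hηr, ← hab',
    div_pow]
  field_simp

theorem frac_aux (R L : Type) [CommRing R] (I : Ideal R) [I.IsPrime] [Field L] [Algebra (R ⧸ I) L]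
    [IsFractionRing (R ⧸ I) L] : ∃ φ : R →+* L, (∀ p, φ p = 0 ↔ p ∈ I) ∧
      ∀ x : L, ∃ a b, φ b ≠ 0 ∧ φ a / φ b = x := by
  have h0 : ∀ p, (algebraMap (R ⧸ I) L).comp (Ideal.Quotient.mk I) p = 0 ↔ p ∈ I := by
    intro p
    rw [← Ideal.Quotient.eq_zero_iff_mem]
    exact map_eq_zero_iff _ (IsFractionRing.injective (R ⧸ I) L)
  refine ⟨(algebraMap (R ⧸ I) L).comp (Ideal.Quotient.mk I), h0, fun x => ?_⟩
  obtain ⟨a, b, hb, hab⟩ := IsFractionRing.div_surjective (A := R ⧸ I) x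
  obtain ⟨g₁, rfl⟩ := Ideal.Quotient.mk_surjective a
  obtain ⟨g₂, rfl⟩ := Ideal.Quotient.mk_surjective b
  refine ⟨g₁, g₂, fun h1 => ?_, hab⟩
  rw [h0, ← Ideal.Quotient.eq_zero_iff_mem] at h1
  exact nonZeroDivisors.ne_zero hb h1

theorem root : S_root := by
  intro d h hI P A F r hP hr hA hF hres
  have := pp_prime hI
  obtain ⟨φ, hφ', hfr⟩ := frac_aux (MvPolynomial (Option (Fin d)) ℤ)
    (FractionRing (MvPolynomial (Option (Fin d)) ℤ ⧸ pp h)) (pp h)
  have hφ : ∀ p, φ p = 0 ↔ InP h p := hφ'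
  have hren : ∀ c : MvPolynomial (Fin d) ℤ, c ≠ 0 → ¬ InP h (rename some c) := by
    rintro c hc ⟨e, he, he'⟩
    refine hI.one ⟨e * c, mul_ne_zero he hc, ?_⟩
    rw [map_mul, mul_one]
    exact he'
  obtain ⟨κ, h1, h2, g₁, g₂, h3, h4, h5⟩ := root_aux (rename some : MvPolynomial (Fin d) ℤ →ₐ[ℤ] _).toRingHom φ
    (rename_injective _ (Option.some_injective _)) (by
      rw [injective_iff_map_eq_zero]
      intro c hc
      by_contra hne
      exact hren c hne ((hφ _).1 hc)) hfr P A F r hP hr (fun h1 => hA ((hφ A).1 h1))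
      (fun h1 => hF ((hφ F).1 h1)) ((hφ _).2 hres)
  exact ⟨κ, h1, h2, g₁, g₂, fun h => h3 ((hφ _).2 h), fun h => h4 ((hφ _).2 h), (hφ _).1 h5⟩

end Pool.Agent.N157.HB
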